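import Pool.Agent.Helper56.TOF.Goals
import Mathlib

/-! # Project TOF, packet JK: joint continuity of `kapT` and of the iterates -/

set_option autoImplicit false

open Set Filter Topology MeasureTheory

open scoped ContDiff

namespace Pool.Agent.Helper16.TOF

open Pool.Agent.Helper56.RZ Pool.Agent.Helper30.CIR Pool.Agent.Helper56.TOF

theorem deriv_cont {K : ℕ} {M : Set (E K)} {G : ℝ × ℝ × E K → ℝ}
    (hG : ContDiffOn ℝ 1 G (Ioi (0 : ℝ) ×ˢ ((univ : Set ℝ) ×ˢ M))) :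
    ContinuousOn (fun v : ℝ × E K => deriv (fun t => G (v.1, t, v.2)) 0) (Ioi 0 ×ˢ M) := by
  intro v hv
  have hw : ((v.1, 0, v.2) : ℝ × ℝ × E K) ∈ Ioi (0 : ℝ) ×ˢ ((univ : Set ℝ) ×ˢ M) :=
    ⟨hv.1, mem_univ _, hv.2⟩
  have h0 : ContDiffWithinAt ℝ (0 + 1) G (Ioi (0 : ℝ) ×ˢ ((univ : Set ℝ) ×ˢ M))
      (v.1, 0, v.2) := by
    rw [zero_add]
    exact hG _ hw
  rw [contDiffWithinAt_succ_iff_hasFDerivWithinAt (by simp)] at h0
  obtain ⟨u, hu, -, f', hf', hc⟩ := h0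
  rw [insert_eq_of_mem hw] at hu
  obtain ⟨o, ho, hxo, hou⟩ := mem_nhdsWithin.1 hu
  have hwu : ((v.1, 0, v.2) : ℝ × ℝ × E K) ∈ u := mem_of_mem_nhdsWithin hw hu
  have hc' : ContinuousWithinAt f' (Ioi (0 : ℝ) ×ˢ ((univ : Set ℝ) ×ˢ M)) (v.1, 0, v.2) := by
    have h3 : ContinuousWithinAt f' u (v.1, 0, v.2) := hc.continuousWithinAt
    exact h3.mono_of_mem_nhdsWithin hu
  have hj : Continuous (fun v : ℝ × E K => ((v.1, 0, v.2) : ℝ × ℝ × E K)) := by fun_prop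
  have hmaps : MapsTo (fun v : ℝ × E K => ((v.1, 0, v.2) : ℝ × ℝ × E K)) (Ioi 0 ×ˢ M)
      (Ioi (0 : ℝ) ×ˢ ((univ : Set ℝ) ×ˢ M)) := fun y hy => ⟨hy.1, mem_univ _, hy.2⟩
  have hkey : ∀ y : ℝ × E K, y ∈ Ioi (0 : ℝ) ×ˢ M → ((y.1, 0, y.2) : ℝ × ℝ × E K) ∈ o →
      deriv (fun t => G (y.1, t, y.2)) 0 = f' (y.1, 0, y.2) (0, 1, 0) := by
    intro y hy hyo
    have hyS : ((y.1, 0, y.2) : ℝ × ℝ × E K) ∈ Ioi (0 : ℝ) ×ˢ ((univ : Set ℝ) ×ˢ M) := hmaps hy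
    have h5 : HasFDerivWithinAt G (f' (y.1, 0, y.2)) (Ioi (0 : ℝ) ×ˢ ((univ : Set ℝ) ×ˢ M))
        (y.1, 0, y.2) :=
      (hf' _ (hou ⟨hyo, hyS⟩)).mono_of_mem_nhdsWithin (mem_nhdsWithin.2 ⟨o, ho, hyo, hou⟩)
    have h6 : HasDerivWithinAt (fun t : ℝ => ((y.1, t, y.2) : ℝ × ℝ × E K)) (0, 1, 0) univ 0 := by
      have h7 : HasDerivAt (fun t : ℝ => ((y.1, t, y.2) : ℝ × ℝ × E K)) (0, 1, 0) 0 :=
        (hasDerivAt_const (0 : ℝ) y.1).prodMk ((hasDerivAt_id (0 : ℝ)).prodMk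
          (hasDerivAt_const (0 : ℝ) y.2))
      exact h7.hasDerivWithinAt
    have h8 : MapsTo (fun t : ℝ => ((y.1, t, y.2) : ℝ × ℝ × E K)) univ
        (Ioi (0 : ℝ) ×ˢ ((univ : Set ℝ) ×ˢ M)) := fun t _ => ⟨hy.1, mem_univ _, hy.2⟩
    have h9 := h5.comp_hasDerivWithinAt (0 : ℝ) h6 h8
    rw [hasDerivWithinAt_univ] at h9
    exact h9.deriv
  have h10 : ContinuousWithinAt (fun y : ℝ × E K => f' (y.1, 0, y.2) (0, 1, 0)) (Ioi 0 ×ˢ M) v := by
    have h11 : ContinuousWithinAt (fun y : ℝ × E K => f' (y.1, 0, y.2)) (Ioi 0 ×ˢ M) v :=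
      ContinuousWithinAt.comp (t := Ioi (0 : ℝ) ×ˢ ((univ : Set ℝ) ×ˢ M)) (g := f') hc'
        hj.continuousWithinAt hmaps
    exact h11.clm_apply continuousWithinAt_const
  refine h10.congr_of_eventuallyEq ?_ (hkey v hv hxo)
  have h12 : ∀ᶠ y in 𝓝[Ioi (0 : ℝ) ×ˢ M] v, ((y.1, 0, y.2) : ℝ × ℝ × E K) ∈ o :=
    mem_nhdsWithin_of_mem_nhds (hj.continuousAt (ho.mem_nhds hxo))
  filter_upwards [h12, self_mem_nhdsWithin] with y hyo hy
  exact hkey y hy hyo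

theorem gJK : StmtSMO → StmtJK := by
  intro hSMO K s M A b B tau p b0 z0 Φ q r hs1 hs hF hB hb0 hPF hq hc
  have hth := hSMO K s M A b B tau p b0 z0 Φ q r hs hB hb0 hPF hq hc
  have huu : ContDiffOn ℝ s (fun v : ℝ × E K => uu Φ B tau b0 q r v.1 v.2) (Ioi 0 ×ˢ M) := by
    have h1 : ContDiffOn ℝ s (fun v : ℝ × E K => 1 / v.1 - 1) (Ioi 0 ×ˢ M) := by
      refine ContDiffOn.sub (contDiffOn_const.div contDiffOn_fst ?_) contDiffOn_const
      intro v hv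
      exact ne_of_gt hv.1
    exact h1.add hth
  constructor
  · have hG : ContDiffOn ℝ 1 (fun w : ℝ × ℝ × E K => uu Φ B tau b0 q r w.1 (A w.2.1 w.2.2))
        (Ioi (0 : ℝ) ×ˢ ((univ : Set ℝ) ×ˢ M)) := by
      have h1 : ContDiffOn ℝ s (fun w : ℝ × ℝ × E K => ((w.1, A w.2.1 w.2.2) : ℝ × E K))
          (Ioi (0 : ℝ) ×ˢ ((univ : Set ℝ) ×ˢ M)) := by
        refine ContDiffOn.prodMk contDiffOn_fst ?_
        exact hF.smooth.comp contDiffOn_snd (fun w hw => hw.2)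
      have h2 : MapsTo (fun w : ℝ × ℝ × E K => ((w.1, A w.2.1 w.2.2) : ℝ × E K))
          (Ioi (0 : ℝ) ×ˢ ((univ : Set ℝ) ×ˢ M)) (Ioi (0 : ℝ) ×ˢ M) :=
        fun w hw => ⟨hw.1, hF.maps _ hw.2.2⟩
      exact (huu.comp h1 h2).of_le hs1
    have h3 := deriv_cont hG
    exact continuousOn_const.add h3
  · have hg : ContinuousOn (fun v : ℝ × E K => gT A Φ B tau b0 q r v.1 v.2) (Ioi 0 ×ˢ M) := by
      have h1 : ContinuousOn (fun v : ℝ × E K => A (uu Φ B tau b0 q r v.1 v.2) v.2)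
          (Ioi 0 ×ˢ M) :=
        hF.smooth.continuousOn.comp (huu.continuousOn.prodMk continuousOn_snd)
          (fun v hv => ⟨mem_univ _, hv.2⟩)
      have h2 : ContinuousOn (A 1) M := by
        have h3 := hF.smooth.continuousOn.comp (f := fun x : E K => ((1 : ℝ), x))
          (s := M) (by fun_prop) (fun x hx => ⟨mem_univ _, hx⟩)
        exact h3
      exact h2.comp h1 (fun v hv => hF.maps _ hv.2)
    have hm : ∀ n : ℕ, ∀ v ∈ Ioi (0 : ℝ) ×ˢ M, (gT A Φ B tau b0 q r v.1)^[n] v.2 ∈ M := by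
      intro n
      induction n with
      | zero => exact fun v hv => hv.2
      | succ n ih =>
        intro v hv
        rw [Function.iterate_succ_apply']
        exact hF.maps 1 (hF.maps _ (ih v hv))
    intro n
    induction n with
    | zero => exact continuousOn_snd
    | succ n ih =>
      have h4 : ContinuousOn (fun v : ℝ × E K => ((v.1, (gT A Φ B tau b0 q r v.1)^[n] v.2) : ℝ × E K))
          (Ioi 0 ×ˢ M) := continuousOn_fst.prodMk ih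
      have h5 := hg.comp h4 (fun v hv => ⟨hv.1, hm n v hv⟩)
      refine h5.congr ?_
      intro v hv
      simp only [Function.iterate_succ_apply', Function.comp]

end Pool.Agent.Helper16.TOF
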